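import Mathlib
import Pool.Agent.LeoD.CountStmts

/-!
# Squad LEOD: modules FUN and USB
-/

set_option autoImplicit false

open NumberField NumberField.InfinitePlace NumberField.mixedEmbedding IsDedekindDomain Module
open Pool.Agent.Helper85_Leo Pool.Agent.LeoK Pool.Agent.LeoG Pool.Agent.LeoC

open scoped Classical

namespace Pool.Agent.LeoD.H52

variable {k : Type} [Field k] [NumberField k]

/-- a number in `c J` whose product with a number prime to `J` is in `K J` -/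
theorem mem_mul_of_cop {I J K : Ideal (𝓞 k)} (h : I ⊔ J = ⊤) {y : 𝓞 k} (h1 : y ∈ I * K)
    (h2 : y ∈ K * J) : y ∈ I * (K * J) := by
  have h3 : (1 : 𝓞 k) ∈ I ⊔ J := by rw [h]; exact Submodule.mem_top
  obtain ⟨a, ha, s, hs, has⟩ := Submodule.mem_sup.1 h3
  have h4 : y = a * y + s * y := by rw [← add_mul, has, one_mul]
  rw [h4]
  refine add_mem (Ideal.mul_mem_mul ha h2) ?_
  have h5 : s * y ∈ J * (I * K) := Ideal.mul_mem_mul hs h1
  have h6 : J * (I * K) = I * (K * J) := by ring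
  rwa [h6] at h5

theorem cop_pow {p : HeightOneSpectrum (𝓞 k)} {c : 𝓞 k} (hc : c ∉ p.asIdeal) (n : ℕ) :
    Ideal.span {c} ⊔ p.asIdeal ^ n = ⊤ := by
  have h1 : Ideal.span {c} ⊔ p.asIdeal = ⊤ := by
    have hm : p.asIdeal.IsMaximal := p.isMaximal
    refine hm.1.2 _ ?_
    refine lt_of_le_of_ne le_sup_right ?_
    intro h
    apply hc
    rw [h]
    exact Ideal.mem_sup_left (Ideal.mem_span_singleton_self c)
  exact Ideal.sup_pow_eq_top h1

theorem mem_of_sq_mem {I : Ideal (𝓞 k)} {r : 𝓞 k} (h : r ^ 2 ∈ I ^ 2) : r ∈ I := by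
  have h1 : I ^ 2 ∣ Ideal.span {r} ^ 2 := by
    rw [Ideal.dvd_iff_le, Ideal.span_singleton_pow, Ideal.span_singleton_le_iff_mem]
    exact h
  have h2 : I ∣ Ideal.span {r} := (UniqueFactorizationMonoid.pow_dvd_pow_iff_dvd two_ne_zero).1 h1
  rw [Ideal.dvd_iff_le, Ideal.span_singleton_le_iff_mem] at h2
  exact h2

theorem int_root {x : k} {m : 𝓞 k} (h : x ^ 2 = (m : k)) : ∃ r : 𝓞 k, r ^ 2 = m ∧ (r : k) = x := by
  have h1 : IsIntegral ℤ x := by
    have h2 : IsIntegral ℤ (x ^ 2) := by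
      rw [h]
      exact m.2
    exact IsIntegral.of_pow (by norm_num) h2
  refine ⟨⟨x, h1⟩, ?_, rfl⟩
  apply RingOfIntegers.ext
  simpa using h

theorem fund_ne_zero {cc : Ideal (𝓞 k)} {m : 𝓞 k} (hF : Fund cc m) : m ≠ 0 := by
  rintro rfl
  obtain ⟨P, hP⟩ := Ideal.exists_maximal (𝓞 k)
  have hne : P ≠ ⊥ := Ring.ne_bot_of_isMaximal_of_not_isField hP (RingOfIntegers.not_isField k)
  exact hF.loc ⟨P, hP.isPrime, hne⟩ ⟨0, zero_mem _, by simp⟩

theorem fund_mem {cc : Ideal (𝓞 k)} {m : 𝓞 k} (hF : Fund cc m) : m ∈ cc ^ 2 := by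
  obtain ⟨q, hq, h⟩ := hF.sq
  have h1 : q ^ 2 + m ∈ cc ^ 2 := Ideal.mul_le_right h
  have h2 : q ^ 2 ∈ cc ^ 2 := Ideal.pow_mem_pow hq 2
  have h3 : m = (q ^ 2 + m) - q ^ 2 := by ring
  rw [h3]
  exact sub_mem h1 h2

theorem fund_odd {cc : Ideal (𝓞 k)} {m : 𝓞 k} (hF : Fund cc m) (p : HeightOneSpectrum (𝓞 k))
    (h2 : (2 : 𝓞 k) ∉ p.asIdeal) : m ∉ (cc * p.asIdeal) ^ 2 := by
  intro hm
  obtain ⟨q, hq, h⟩ := hF.sq
  have hprime : p.asIdeal.IsPrime := p.isPrime
  have h4 : (4 : 𝓞 k) ∉ p.asIdeal := by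
    intro h4
    have : (2 : 𝓞 k) * 2 ∈ p.asIdeal := by norm_num; exact h4
    exact (hprime.mem_or_mem this).elim h2 h2
  have hc1 := cop_pow h4 1
  rw [pow_one] at hc1
  have h3 : (1 : 𝓞 k) ∈ Ideal.span {(4 : 𝓞 k)} ⊔ p.asIdeal := by rw [hc1]; exact Submodule.mem_top
  obtain ⟨a, ha, u, hu, hau⟩ := Submodule.mem_sup.1 h3
  have hqu : q * u ∈ cc * p.asIdeal := Ideal.mul_mem_mul hq hu
  refine hF.loc p ⟨q * u, hqu, ?_⟩
  have h5 : (q * u) ^ 2 + m ∈ Ideal.span {(4 : 𝓞 k)} * cc ^ 2 := by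
    have h6 : (q * u) ^ 2 + m = (q ^ 2 + m) + (a * (-(1 + u))) * q ^ 2 := by
      have : a = 1 - u := by rw [← hau]; ring
      rw [this]
      ring
    rw [h6]
    refine add_mem h (Ideal.mul_mem_mul (Ideal.mul_mem_right _ _ ha) (Ideal.pow_mem_pow hq 2))
  have h7 : (q * u) ^ 2 + m ∈ cc ^ 2 * p.asIdeal ^ 2 := by
    rw [← mul_pow]
    exact add_mem (Ideal.pow_mem_pow hqu 2) hm
  have h8 := mem_mul_of_cop (cop_pow h4 2) h5 h7
  rwa [← mul_pow] at h8

theorem fund_dvd {cc : Ideal (𝓞 k)} {m : 𝓞 k} (hcc : cc ≠ ⊥) (hF : Fund cc m)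
    (hx : (∃ x : k, x ^ 2 = -(m : k)) ∨ ∃ x : k, x ^ 2 = 3 * (m : k)) :
    Ideal.span {m} ∣ Ideal.span {(24 : 𝓞 k)} * cc ^ 2 := by
  have hm2 := fund_mem hF
  have hm0 := fund_ne_zero hF
  rcases hx with ⟨x, hx⟩ | ⟨x, hx⟩
  · obtain ⟨r, hr, -⟩ := int_root (m := -m) (by rw [hx]; simp)
    have hrc : r ∈ cc := mem_of_sq_mem (by rw [hr]; exact neg_mem hm2)
    have hcr : cc ∣ Ideal.span {r} := by
      rw [Ideal.dvd_iff_le, Ideal.span_singleton_le_iff_mem]
      exact hrc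
    obtain ⟨J, hJ⟩ := hcr
    have hJ1 : J = ⊤ := by
      by_contra hJt
      obtain ⟨P, hP, hPJ⟩ := Ideal.exists_le_maximal J hJt
      have hJ0 : J ≠ ⊥ := by
        rintro rfl
        rw [Ideal.mul_bot] at hJ
        have h1 : r = 0 := by simpa using hJ
        rw [h1] at hr
        apply hm0
        have h2 : m = -(-m) := by ring
        rw [h2, ← hr]
        ring
      have hP0 : P ≠ ⊥ := fun h => hJ0 (le_bot_iff.1 (h ▸ hPJ))
      refine hF.loc ⟨P, hP.isPrime, hP0⟩ ⟨r, ?_, ?_⟩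
      · change r ∈ cc * P
        have h1 : r ∈ cc * J := by rw [← hJ]; exact Ideal.mem_span_singleton_self r
        exact Ideal.mul_mono_right hPJ h1
      · rw [hr, neg_add_cancel]
        exact zero_mem _
    rw [hJ1, Ideal.mul_top] at hJ
    have h1 : Ideal.span {m} = cc ^ 2 := by
      rw [← hJ, Ideal.span_singleton_pow, hr, Ideal.span_singleton_neg]
    rw [h1]
    exact dvd_mul_left _ _
  · obtain ⟨r, hr, -⟩ := int_root (m := 3 * m) (by
      rw [hx]
      change 3 * (m : k) = algebraMap (𝓞 k) k (3 * m)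
      rw [map_mul, map_ofNat])
    have hrc : r ∈ cc := mem_of_sq_mem (by rw [hr]; exact Ideal.mul_mem_left _ _ hm2)
    obtain ⟨J, hJ⟩ : cc ∣ Ideal.span {r} := by
      rw [Ideal.dvd_iff_le, Ideal.span_singleton_le_iff_mem]
      exact hrc
    obtain ⟨M, hM⟩ : cc ^ 2 ∣ Ideal.span {m} := by
      rw [Ideal.dvd_iff_le, Ideal.span_singleton_le_iff_mem]
      exact hm2
    have hcc2 : cc ^ 2 ≠ 0 := pow_ne_zero 2 hcc
    have hM0 : M ≠ 0 := by
      rintro rfl
      rw [mul_zero] at hM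
      exact hm0 (by simpa using hM)
    have hMJ : Ideal.span {(3 : 𝓞 k)} * M = J ^ 2 := by
      refine mul_left_cancel₀ hcc2 ?_
      calc cc ^ 2 * (Ideal.span {(3 : 𝓞 k)} * M) = Ideal.span {(3 : 𝓞 k)} * (cc ^ 2 * M) := by ring
        _ = Ideal.span {3 * m} := by rw [← hM, Ideal.span_singleton_mul_span_singleton]
        _ = (cc * J) ^ 2 := by rw [← hJ, Ideal.span_singleton_pow, hr]
        _ = cc ^ 2 * J ^ 2 := by rw [mul_pow]
    -- the prime divisors of `M`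
    have hpr : ∀ p : HeightOneSpectrum (𝓞 k), p.asIdeal ∣ M → (3 : 𝓞 k) ∈ p.asIdeal := by
      intro p hpM
      by_contra h3
      have hpJ : p.asIdeal ∣ J := by
        have h1 : p.asIdeal ∣ J ^ 2 := by
          rw [← hMJ]
          exact hpM.mul_left _
        have hp : Prime p.asIdeal := Ideal.prime_of_isPrime p.ne_bot p.isPrime
        exact hp.dvd_of_dvd_pow h1
      have hrp : r ∈ cc * p.asIdeal := by
        have h1 : cc * p.asIdeal ∣ Ideal.span {r} := by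
          rw [hJ]
          exact mul_dvd_mul_left cc hpJ
        rw [Ideal.dvd_iff_le, Ideal.span_singleton_le_iff_mem] at h1
        exact h1
      refine hF.loc p ⟨r, hrp, ?_⟩
      have h4 : r ^ 2 + m = 4 * m := by rw [hr]; ring
      rw [h4]
      refine Ideal.mul_mem_mul (Ideal.mem_span_singleton_self _) ?_
      rw [mul_pow]
      have h5 : 3 * m ∈ cc ^ 2 * p.asIdeal ^ 2 := by
        rw [← hr, ← mul_pow]
        exact Ideal.pow_mem_pow hrp 2
      have h6 : (1 : 𝓞 k) ∈ Ideal.span {(3 : 𝓞 k)} ⊔ p.asIdeal ^ 2 := by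
        rw [cop_pow h3 2]; exact Submodule.mem_top
      obtain ⟨a, ha, s, hs, has⟩ := Submodule.mem_sup.1 h6
      obtain ⟨b, rfl⟩ := Ideal.mem_span_singleton.1 ha
      have h7 : m = b * (3 * m) + m * s := by
        calc m = (3 * b + s) * m := by rw [has, one_mul]
          _ = _ := by ring
      rw [h7]
      exact add_mem (Ideal.mul_mem_left _ _ h5) (Ideal.mul_mem_mul hm2 hs)
    have hsqf : Squarefree M := by
      intro I hI
      by_contra hu
      rw [Ideal.isUnit_iff] at hu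
      obtain ⟨P, hP, hPI⟩ := Ideal.exists_le_maximal I hu
      have hP0 : P ≠ ⊥ := by
        rintro rfl
        rw [le_bot_iff] at hPI
        rw [hPI, Ideal.bot_mul] at hI
        exact hM0 (zero_dvd_iff.1 hI)
      have hPM : P * P ∣ M := (mul_dvd_mul (Ideal.dvd_iff_le.2 hPI) (Ideal.dvd_iff_le.2 hPI)).trans hI
      have h3 := hpr ⟨P, hP.isPrime, hP0⟩ ((dvd_mul_right P P).trans hPM)
      have h2 : (2 : 𝓞 k) ∉ P := by
        intro h2
        apply hP.ne_top
        rw [Ideal.eq_top_iff_one]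
        have h5 : (1 : 𝓞 k) = 3 - 2 := by norm_num
        rw [h5]
        exact sub_mem h3 h2
      refine fund_odd hF ⟨P, hP.isPrime, hP0⟩ h2 ?_
      change m ∈ (cc * P) ^ 2
      have h1 : (cc * P) ^ 2 ∣ Ideal.span {m} := by
        rw [hM, mul_pow, pow_two P]
        exact mul_dvd_mul_left _ hPM
      rw [Ideal.dvd_iff_le, Ideal.span_singleton_le_iff_mem] at h1
      exact h1
    have h30 : Ideal.span {(3 : 𝓞 k)} ≠ 0 := by
      intro h
      have h1 : (3 : 𝓞 k) = 0 := by simpa using h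
      norm_num at h1
    have hM3 : M ∣ Ideal.span {(3 : 𝓞 k)} := by
      rw [UniqueFactorizationMonoid.dvd_iff_normalizedFactors_le_normalizedFactors hM0 h30]
      rw [Multiset.le_iff_subset
        ((UniqueFactorizationMonoid.squarefree_iff_nodup_normalizedFactors hM0).1 hsqf)]
      intro P hP
      have hPp := UniqueFactorizationMonoid.prime_of_normalized_factor P hP
      have hPM := UniqueFactorizationMonoid.dvd_of_mem_normalizedFactors hP
      have hPpr : P.IsPrime := Ideal.isPrime_of_prime hPp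
      have h3 := hpr ⟨P, hPpr, hPp.ne_zero⟩ hPM
      rw [UniqueFactorizationMonoid.mem_normalizedFactors_iff h30]
      refine ⟨hPp, ?_⟩
      rw [Ideal.dvd_iff_le, Ideal.span_singleton_le_iff_mem]
      exact h3
    rw [hM, mul_comm]
    refine mul_dvd_mul ?_ dvd_rfl
    refine hM3.trans ⟨Ideal.span {(8 : 𝓞 k)}, ?_⟩
    rw [Ideal.span_singleton_mul_span_singleton]
    norm_num

/-- FUN -/
theorem fun_ : FunStmt := by
  intro k _ _ cc m hcc hF
  exact ⟨fund_ne_zero hF, fund_mem hF, fun p h2 => fund_odd hF p h2, fun hx => fund_dvd hcc hF hx⟩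

/-- USB -/
theorem usb (hFUN : FunStmt) (hEVS : EvsStmt) : UsbStmt := by
  intro k _ _ cc m hcc hF hx
  obtain ⟨hm0, -, -, h⟩ := hFUN k cc m hcc hF
  obtain ⟨-, -, -, -, -, -, -, -, hn⟩ := hEVS k
  rw [(hn m hm0).2]
  have h1 := Ideal.absNorm_dvd_absNorm_of_le (Ideal.dvd_iff_le.1 (h hx))
  rw [map_mul, map_pow] at h1
  have h24 : Ideal.absNorm (Ideal.span {(24 : 𝓞 k)}) = 24 ^ finrank ℚ k := by
    rw [Ideal.absNorm_span_singleton]
    have h2 : (24 : 𝓞 k) = algebraMap ℤ (𝓞 k) 24 := by simp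
    rw [h2, Algebra.norm_algebraMap, RingOfIntegers.rank, Int.natAbs_pow]
    rfl
  rw [h24] at h1
  have hpos : 0 < 24 ^ finrank ℚ k * Ideal.absNorm cc ^ 2 := by
    have h3 : Ideal.absNorm cc ≠ 0 := by
      rw [Ne, Ideal.absNorm_eq_zero_iff]
      exact hcc
    positivity
  exact_mod_cast Nat.le_of_dvd hpos h1

end Pool.Agent.LeoD.H52
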